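import Pool.Agent.H50.GW.Stm
import Pool.Agent.H50.BF.LIB

/-!
# Team GG: the least Goldbach summand in Granville's model

Granville's model with sieving limit `(log n)^(θ + o(1))`, `0 < θ ≤ 1`: independent events `A n`; `A n` is
empty if `n` has a prime factor `≤ z n`, where `log (z n) / log log n → θ`, and
`P (A n) ~ MM (z n) / log n`, `MM v = ∏_{p ≤ v} (1 - 1/p)⁻¹`, for the other `n`. For every `u > 2 / θ` there
are (in all intervals `(Y, Y + Y^(κ c + ε)]`, `c = C₂ e^γ ω(u)`, `ω` Buchstab's function) even `N` which are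
not a sum of an `s ≤ κ (log N)² log log N` and another chosen integer. Since `ω(2) = 1/2` and `ω(u) < e^(-γ)`
for arbitrarily large `u`, the exact constant `1 / C₂` for the limits `(log n)^(o(1))` is wrong here.

For each statement `S_X` write `Pool/Agent/H95/GG/T/X.lean` with namespace `Pool.Agent.H95.GG.T.X` and
`theorem main : S_X` (or `theorem main (h1 : S_Y) : S_X`; the dependencies may be assumed).
-/

set_option autoImplicit false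

open MeasureTheory Filter ProbabilityTheory
open scoped Topology ENNReal

namespace Pool.Agent.H95.GG

open Pool.Agent.H50.BF (MM S_MERT)
open Pool.Agent.H50.GW (Rou NN S_LDU)
open Pool.Agent.R529.BU (om)

/-- Granville's model with sieving limit `(log n)^(θ + o(1))` -/
structure GT {Ω : Type} [MeasurableSpace Ω] (P : Measure Ω) (A : ℕ → Set Ω) (z : ℕ → ℕ) (θ : ℝ) : Prop where
  prob : IsProbabilityMeasure P
  meas : ∀ n, MeasurableSet (A n)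
  indep : iIndepSet A P
  empty : ∀ n, ¬ Rou (z n) n → A n = ∅
  mono : Monotone z
  lev : Tendsto (fun n : ℕ => Real.log (z n) / Real.log (Real.log n)) atTop (𝓝 θ)
  dens : Tendsto (fun n : ℕ => (P (A n)).toReal * (Real.log n / MM (z n)))
    (atTop ⊓ 𝓟 {n : ℕ | Rou (z n) n}) (𝓝 1)

/-- the range of the small summand for `N ≤ 2 Y` -/
noncomputable def yy (κ : ℝ) (Y : ℕ) : ℕ :=
  ⌊κ * (Real.log (2 * (Y : ℝ)) ^ 2 * Real.log (Real.log (2 * (Y : ℝ))))⌋₊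

open Classical in
/-- the number of the `1 ≤ n ≤ x` without prime factor `≤ v` -/
noncomputable def ru (v x : ℕ) : ℕ := ((Finset.Icc 1 x).filter (Rou v)).card

/-- `∏ (1 - 1/(p-1))` over the primes `3 ≤ p ≤ w` -/
noncomputable def TP (w : ℕ) : ℝ := ∏ p ∈ (Finset.Icc 3 w).filter Nat.Prime, (1 - 1 / ((p : ℝ) - 1))

/-- the twin prime constant -/
noncomputable def C2 : ℝ := ⨅ v : ℕ, ∏ p ∈ (Finset.Icc 3 v).filter Nat.Prime, (1 - 1 / ((p : ℝ) - 1) ^ 2)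

/-- the constant `C₂ e^γ ω(u)` -/
noncomputable def cc (u : ℝ) : ℝ := C2 * (Real.exp Real.eulerMascheroniConstant * om u)

/-! ## Combinatorics -/

/-- GG-GDY. Greedy choice of residue classes.
Proof. Induction on the primes. If the elements of `S` (those which are left) are not divisible by `p`,
they lie in `p - 1` classes modulo `p`, so some class `a p` contains at least `|S| / (p - 1)` of them
(`Finset.exists_lt_card_fiber_of_mul_lt_card_of_maps_to` or a sum over the classes); without this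
assumption at least `|S| / p`. Remove them. -/
def S_GDY : Prop := ∀ S F₁ F₂ : Finset ℕ, (∀ p ∈ F₁, p.Prime ∧ 3 ≤ p) → (∀ p ∈ F₂, p.Prime) →
  (∀ p ∈ F₁, ∀ s ∈ S, ¬ p ∣ s) → Disjoint F₁ F₂ →
  ∃ a : ℕ → ℕ, ((S.filter (fun s => ∀ p ∈ F₁ ∪ F₂, s % p ≠ a p % p)).card : ℝ) ≤
    S.card * (∏ p ∈ F₁, (1 - 1 / ((p : ℝ) - 1))) * ∏ p ∈ F₂, (1 - 1 / (p : ℝ))

/-- GG-POSG. Candidates in prescribed residue classes, with distances `> y`.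
Proof. Let `Q = primorial v = ∏_{p ≤ v} p` and `c` with `c ≡ a p` modulo every prime `p ≤ v` (Chinese
remainder theorem, `Nat.chineseRemainderOfFinset` or induction; compare `Pool/Agent/H50/CW/Stm.lean` S_POS and
its proof). For `j < J` let `N_j` be the integer `≡ c` modulo `Q` in
`(Y + j Q (y + 1), Y + j Q (y + 1) + Q]`. For `y = 0` the distances are still positive; in general
`N_(j+1) - N_j ≥ Q (y + 1) - Q + ...`: to be safe use that `N_j = N_0 + j Q (y + 1)` exactly. -/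
def S_POSG : Prop := ∀ (v Y Z y J : ℕ) (a : ℕ → ℕ), J * (primorial v * (y + 1)) ≤ Z →
  ∃ I : Finset ℕ, I.card = J ∧
    (∀ N ∈ I, Y < N ∧ N ≤ Y + Z ∧ ∀ p : ℕ, p.Prime → p ≤ v → N % p = a p % p) ∧
    ∀ N ∈ I, ∀ N' ∈ I, N < N' → N + y < N'

/-! ## Probability -/

open Classical in
/-- GG-HIS. The history `H(ω) = {s ∈ [1, y], ω ∈ A s}` and the positions `N - s`, `s ∈ H`, `N ∈ I H`.
Proof. Partition over the finitely many `H ⊆ Icc 1 y` with `G H`. For fixed `H` the event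
`{H(ω) = H}` depends on the `A m` with `m ≤ y`, the event `N is hit: ∃ s ∈ H, ω ∈ A (N - s)` on the `A m` with
`N - y ≤ m < N`, `y < m`; these ranges are disjoint for the different `N ∈ I H`. So by independence
`P (H(ω) = H, all N ∈ I H are hit) = P (H(ω) = H) ∏_N (1 - ∏_{s ∈ H} (1 - P (A (N - s))))`, and
`1 - x ≥ exp (-(1 + 2 θ) x)` for `0 ≤ x ≤ θ ≤ 1/2`, so every factor is at most `1 - e ≤ exp (-e)`,
`e = exp (-((1 + 2 θ) V))`. Sum over `H`. (Independence: `iIndepSet` gives `iIndepFun` of the indicators, then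
`iIndepFun.finsets_comp`, or `iIndepSet` of the events with complements; compare `Pool/Agent/H50/GW/WND.lean`.) -/
def S_HIS : Prop := ∀ (Ω : Type) [MeasurableSpace Ω] (P : Measure Ω) [IsProbabilityMeasure P] (A : ℕ → Set Ω),
  (∀ n, MeasurableSet (A n)) → iIndepSet A P →
  ∀ (y J : ℕ) (V θ : ℝ) (G : Finset ℕ → Prop) (I : Finset ℕ → Finset ℕ), 0 ≤ θ → θ ≤ 1 / 2 →
  (∀ H : Finset ℕ, H ⊆ Finset.Icc 1 y → G H → (I H).card = J ∧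
    (∀ N ∈ I H, 2 * y < N ∧ (∀ s ∈ H, P.real (A (N - s)) ≤ θ) ∧ ∑ s ∈ H, P.real (A (N - s)) ≤ V) ∧
    ∀ N ∈ I H, ∀ N' ∈ I H, N < N' → N + y < N') →
  P.real {ω | G ((Finset.Icc 1 y).filter (fun s => ω ∈ A s)) ∧
      ∀ N ∈ I ((Finset.Icc 1 y).filter (fun s => ω ∈ A s)),
        ∃ s ∈ (Finset.Icc 1 y).filter (fun s => ω ∈ A s), ω ∈ A (N - s)} ≤
    Real.exp (-(J * Real.exp (-((1 + 2 * θ) * V))))

open Classical in
/-- GG-CHE. Upper deviations.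
Proof. `GW.S_LDU` (proved: `Pool.Agent.H50.GW.ldu` with `mgi`, see `Pool/Agent/H50/GW/LDU.lean`, `MGI.lean`, `ALL.lean`)
with `t = τ`, `u = (1 + τ) E + D`: the bound is `exp (-(D log (1 + τ)) - (1 + τ) log (1 + τ) E + τ ∑)`,
`∑ ≤ E`, and `(1 + τ) log (1 + τ) ≥ τ` (`log (1 + τ) ≥ 1 - 1 / (1 + τ)`). -/
def S_CHE : Prop := ∀ (Ω : Type) [MeasurableSpace Ω] (P : Measure Ω) [IsProbabilityMeasure P] (A : ℕ → Set Ω),
  (∀ n, MeasurableSet (A n)) → iIndepSet A P → ∀ (S : Finset ℕ) (E D τ : ℝ), 0 < τ → 0 ≤ D →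
  ∑ s ∈ S, P.real (A s) ≤ E →
  P.real {ω | (1 + τ) * E + D ≤ ((S.filter (fun s => ω ∈ A s)).card : ℝ)} ≤
    Real.exp (-(D * Real.log (1 + τ)))

open Classical in
/-- GG-SUP (uses S_GDY, S_POSG, S_HIS). The probability that all even `N ∈ (Y, Y + Z]` have a
representation, while at most `B` chosen `s ∈ (y1, y]` have no prime factor `≤ v`.
Proof. For a history `H ⊆ Icc 1 y` let `S' = {s ∈ H, y1 < s, Rou v s}`; `G H`: `|S'| ≤ B`, and all `s ∈ H` are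
`Rou (z s)` (true for `H = H(ω)` by `empty`). Apply S_GDY to `S'`, `F₁` = primes in `[3, w]` (`w ≤ v`), `F₂` =
primes in `(v, v2]`: classes `a p`; put `a p = 0` for the other primes (`p = 2` and `w < p ≤ v`). `I H` from
S_POSG (with `v2`). Let `N ∈ I H`, `s ∈ H`: `A (N - s)` is empty unless `s ≤ y1` or `s ∈ S'` with
`s % p ≠ a p % p` for all `p ∈ F₁ ∪ F₂`. Indeed `N - s ≥ Y - y`, so `A (N - s)` is empty if a prime `p ≤ v2`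
divides `N - s` (`v2 ≤ z (Y - y) ≤ z (N - s)`). Let `s > y1`; `s` is `Rou (z s)`, `z s ≥ z y1 ≥ w`. If `s` is not
`Rou v`, a prime `p ≤ v` divides `s`, `p > w`, so `p ∣ N` (`a p = 0`) and `p ∣ N - s`. If `s % p = a p % p` for some
`p ∈ F₁ ∪ F₂` then `p ∣ N - s`. So `∑_{s ∈ H} P (A (N - s)) ≤ (y1 + B * TP w * (MM v / MM v2)) q =: V`
(`∏_{v < p ≤ v2} (1 - 1/p) = MM v / MM v2`). All `N ∈ I H` are even. S_HIS with `θ = q`. The event in the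
statement is contained in the event of S_HIS. -/
def S_SUP : Prop := ∀ (Ω : Type) [MeasurableSpace Ω] (P : Measure Ω) (A : ℕ → Set Ω) (z : ℕ → ℕ) (θ : ℝ),
  GT P A z θ → ∀ (Y Z y y1 w v v2 J : ℕ) (q B : ℝ), 2 ≤ w → w ≤ v → v ≤ v2 → w ≤ z y1 → v2 ≤ z (Y - y) →
  2 * y < Y → Z ≤ Y → J * (primorial v2 * (y + 1)) ≤ Z → 0 ≤ q → q ≤ 1 / 2 → 0 ≤ B →
  (∀ m : ℕ, Y - y ≤ m → m ≤ 2 * Y → P.real (A m) ≤ q) →
  P.real {ω | (((Finset.Ioc y1 y).filter (fun s => Rou v s ∧ ω ∈ A s)).card : ℝ) ≤ B ∧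
      ∀ N : ℕ, Y < N → N ≤ Y + Z → Even N → ∃ s : ℕ, 1 ≤ s ∧ s ≤ y ∧ ω ∈ A s ∧ ω ∈ A (N - s)} ≤
    Real.exp (-(J * Real.exp (-((1 + 2 * q) * ((y1 + B * TP w * (MM v / MM v2)) * q)))))

/-! ## Limits -/

/-- GG-ROU. Integers without small prime factors.
Proof. `Pool.Agent.R301.GM.rho` (in `Pool/Agent/H50/G/B/R301/GM/Irr.lean`) with `t = 1 / u`, `c = 0`, `L = x`:
`(L + c)^(t u) = x`. `RR x z` there is the set of the `n ≤ x` whose prime factors are `> z`. -/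
def S_ROU : Prop := ∀ u : ℝ, 1 < u →
  Tendsto (fun x : ℕ => (ru ⌊(x : ℝ) ^ (1 / u)⌋₊ x : ℝ) * MM ⌊(x : ℝ) ^ (1 / u)⌋₊ / x) atTop
    (𝓝 (Real.exp Real.eulerMascheroniConstant * om u))

/-- GG-TW. The product for the small primes.
Proof. For `w ≥ 2`, `MM w = 2 ∏_{3 ≤ p ≤ w} (p / (p - 1))` and `(1 - 1/(p-1)) p / (p-1) = 1 - 1/(p-1)²`, so the
function is `2 ∏_{3 ≤ p ≤ w} (1 - 1/(p-1)²)`: antitone and bounded below, it tends to `2 C2`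
(`tendsto_atTop_ciInf`). `C2 > 0`: the product is at least `∏_{k=2}^v (1 - 1/k²) = (v + 1) / (2 v) ≥ 1/2`. -/
def S_TW : Prop := Tendsto (fun w : ℕ => TP w * MM w) atTop (𝓝 (2 * C2)) ∧ 0 < C2

/-- GG-MMZ (uses BF.S_MERT, proved: `Pool.Agent.H50.BF.mert`). The Mertens product at `z`.
Proof. `log (z n) / log log n → θ > 0`, so `z n → ∞` and `MM (z n) / log (z n) → e^γ`; multiply, and compose
with `f`. Second part: `MM` at `⌊L^b⌋₊`, `L → ∞`: `log ⌊L^b⌋₊ / (b log L) → 1`. -/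
def S_MMZ : Prop := ∀ (Ω : Type) [MeasurableSpace Ω] (P : Measure Ω) (A : ℕ → Set Ω) (z : ℕ → ℕ) (θ : ℝ),
  GT P A z θ → 0 < θ →
  (∀ f : ℕ → ℕ, Tendsto f atTop atTop → Tendsto (fun n => z (f n)) atTop atTop ∧
    Tendsto (fun n => MM (z (f n)) / Real.log (Real.log (f n))) atTop
      (𝓝 (Real.exp Real.eulerMascheroniConstant * θ))) ∧
  ∀ b : ℝ, 0 < b → Tendsto (fun Y : ℕ => MM ⌊Real.log Y ^ b⌋₊ / Real.log (Real.log Y)) atTop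
    (𝓝 (Real.exp Real.eulerMascheroniConstant * b))

/-- GG-PRB. Bounds for the probabilities.
Proof. `dens`; for the `n` which are not `Rou (z n)` the probability is `0`. -/
def S_PRB : Prop := ∀ (Ω : Type) [MeasurableSpace Ω] (P : Measure Ω) (A : ℕ → Set Ω) (z : ℕ → ℕ) (θ : ℝ),
  GT P A z θ → ∀ τ : ℝ, 0 < τ → ∀ᶠ n : ℕ in atTop, P.real (A n) ≤ (1 + τ) * (MM (z n) / Real.log n)

/-- GG-YY. The range `y = yy κ Y`, `L = log Y`.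
Proof. `log (2 Y) / L → 1`, `log log (2 Y) / log L → 1`; `log y ~ 2 log L`. -/
def S_YY : Prop := ∀ κ : ℝ, 0 < κ →
  Tendsto (yy κ) atTop atTop ∧
  Tendsto (fun Y : ℕ => (yy κ Y : ℝ) / (Real.log Y ^ 2 * Real.log (Real.log Y))) atTop (𝓝 κ) ∧
  Tendsto (fun Y : ℕ => Real.log (yy κ Y) / Real.log (Real.log Y)) atTop (𝓝 2) ∧
  Tendsto (fun Y : ℕ => Real.log (Real.log (yy κ Y)) / Real.log (Real.log (Real.log Y))) atTop (𝓝 1) ∧
  (∀ c : ℝ, 0 < c → ∀ᶠ Y : ℕ in atTop, (yy κ Y : ℝ) ≤ Real.log Y ^ (2 + c) ∧ Real.log Y ^ 2 ≤ yy κ Y) ∧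
  ∀ c : ℝ, 0 < c → c < 2 → Tendsto (fun Y : ℕ => ⌊Real.log Y ^ c⌋₊) atTop atTop ∧
    Tendsto (fun Y : ℕ => Real.log ⌊Real.log Y ^ c⌋₊ / Real.log (Real.log Y)) atTop (𝓝 c) ∧
    Tendsto (fun Y : ℕ => Real.log (Real.log ⌊Real.log Y ^ c⌋₊) / Real.log (Real.log (Real.log Y))) atTop (𝓝 1)

/-- the main inequality -/
def Num {Ω : Type} [MeasurableSpace Ω] (P : Measure Ω) (A : ℕ → Set Ω) (z : ℕ → ℕ) (θ u κ δ η τ ε : ℝ)
    (Y : ℕ) : Prop :=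
  (1 + 2 * ((1 + τ) ^ 2 * (MM (z (2 * Y)) / Real.log Y))) *
    ((⌊Real.log Y ^ (2 - δ)⌋₊ + ((1 + τ) * ((1 + τ) * (ru ⌊(yy κ Y : ℝ) ^ (1 / u)⌋₊ (yy κ Y)) *
        (MM (z (yy κ Y)) / Real.log ⌊Real.log Y ^ (2 - δ)⌋₊)) + (yy κ Y : ℝ) ^ (3 / 4 : ℝ)) *
      TP (z ⌊Real.log Y ^ (2 - δ)⌋₊) *
      (MM ⌊(yy κ Y : ℝ) ^ (1 / u)⌋₊ / MM ⌊Real.log Y ^ (θ * (1 - η))⌋₊)) *
      ((1 + τ) ^ 2 * (MM (z (2 * Y)) / Real.log Y))) ≤ (κ * cc u + ε) * Real.log Y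

/-- GG-NUM (uses S_ROU, S_TW, S_MMZ, S_YY). The main inequality.
Proof. Let `L = log Y`, `y = yy κ Y`, `y1 = ⌊L^(2-δ)⌋₊`, `v = ⌊y^(1/u)⌋₊`, `v2 = ⌊L^(θ(1-η))⌋₊`, `q = (1+τ)² MM (z (2 Y)) / L`.
By S_MMZ `MM (z (2Y)) / log L → e^γ θ` (`log log (2 Y) / log L → 1`), so `q → 0`; the terms `y1 q / L` and
`y^(3/4) TP (MM v / MM v2) q / L` tend to `0` (`TP ≤ 1`, `MM v / MM v2` is bounded since `MM v ≤ C log y`, or
`MM v ≤ MM v2`). The main term divided by `L` is `(1+τ)^4` times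
`(ru v y MM v / y) * (y / (L² log L)) * (log L / log y1) * (MM (z y) / MM (z y1)) * (TP (z y1) MM (z y1)) *
(MM (z (2 Y)) / MM v2)`, which tends to
`(e^γ om u) * κ * (1 / (2 - δ)) * 1 * (2 C2) * (1 / (1 - η)) = κ cc u * (2 / (2 - δ)) / (1 - η)`
(`MM (z (f Y)) / log log f(Y) → e^γ θ` for `f = y` and `f = y1`, whose `log log` are both `~ log log L`). Choose
`δ, η, τ` so small that `(1+τ)^4 (2/(2-δ)) / (1-η) κ cc u < κ cc u + ε`. -/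
def S_NUM : Prop := ∀ (Ω : Type) [MeasurableSpace Ω] (P : Measure Ω) (A : ℕ → Set Ω) (z : ℕ → ℕ) (θ : ℝ),
  GT P A z θ → 0 < θ → θ ≤ 1 → ∀ u κ ε : ℝ, 2 / θ < u → 0 < κ → 0 < ε →
  ∃ c : ℝ, 0 < c ∧ c < 1 ∧ ∀ δ η τ : ℝ, 0 < δ → δ ≤ c → 0 < η → η ≤ c → 0 < τ → τ ≤ c →
    ∀ᶠ Y : ℕ in atTop, Num P A z θ u κ δ η τ ε Y

open Classical in
/-- GG-SID (uses S_MMZ, S_YY, S_PRB). The side conditions.
Proof. Notation as in GG-NUM, `w = z y1`. `2 ≤ w`: `y1 → ∞`. `w ≤ v`: `log w ≤ 2 θ log log y1` is much smaller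
than `log v ~ (2/u) log L`. `v ≤ v2`: `log v ≤ ((2 + c) / u) log L < θ (1 - η) log L` for small `c`, `η` (as
`2 / u < θ`). `v2 ≤ z (Y - y)`: `log (z (Y - y)) ~ θ log L` (`2 y < Y`, so `Y - y ≥ Y / 2`). The probabilities:
S_PRB for `m ≥ Y / 2`, `MM (z m) ≤ MM (z (2 Y))` and `log m ≥ log (Y / 2) ≥ L / (1 + τ)`; `q → 0`. The sum over
`s ∈ (y1, y]`, `Rou v s`: S_PRB for `s > y1`, `MM (z s) ≤ MM (z y)`, `log s ≥ log y1`. `4^v2 (y + 1) ≤ Y^ε`: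
`v2 ≤ L^(θ(1-η)) = o(L)`. Last: `y ≥ L²`, so `y^(3/4) log (1 + τ) ≥ L^(3/2) log (1 + τ) ≥ 2 L`. -/
def S_SID : Prop := ∀ (Ω : Type) [MeasurableSpace Ω] (P : Measure Ω) (A : ℕ → Set Ω) (z : ℕ → ℕ) (θ : ℝ),
  GT P A z θ → 0 < θ → θ ≤ 1 → ∀ u κ ε : ℝ, 2 / θ < u → 0 < κ → 0 < ε →
  ∃ c : ℝ, 0 < c ∧ c < 1 ∧ ∀ δ η τ : ℝ, 0 < δ → δ ≤ c → 0 < η → η ≤ c → 0 < τ → τ ≤ c →
    ∀ᶠ Y : ℕ in atTop,
      2 ≤ z ⌊Real.log Y ^ (2 - δ)⌋₊ ∧ z ⌊Real.log Y ^ (2 - δ)⌋₊ ≤ ⌊(yy κ Y : ℝ) ^ (1 / u)⌋₊ ∧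
      ⌊(yy κ Y : ℝ) ^ (1 / u)⌋₊ ≤ ⌊Real.log Y ^ (θ * (1 - η))⌋₊ ∧
      ⌊Real.log Y ^ (θ * (1 - η))⌋₊ ≤ z (Y - yy κ Y) ∧ 2 * yy κ Y < Y ∧
      (∀ m : ℕ, Y - yy κ Y ≤ m → m ≤ 2 * Y →
        P.real (A m) ≤ (1 + τ) ^ 2 * (MM (z (2 * Y)) / Real.log Y)) ∧
      0 ≤ (1 + τ) ^ 2 * (MM (z (2 * Y)) / Real.log Y) ∧
      (1 + τ) ^ 2 * (MM (z (2 * Y)) / Real.log Y) ≤ 1 / 2 ∧
      ∑ s ∈ (Finset.Ioc ⌊Real.log Y ^ (2 - δ)⌋₊ (yy κ Y)).filter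
          (Rou ⌊(yy κ Y : ℝ) ^ (1 / u)⌋₊), P.real (A s) ≤
        (1 + τ) * (ru ⌊(yy κ Y : ℝ) ^ (1 / u)⌋₊ (yy κ Y)) *
          (MM (z (yy κ Y)) / Real.log ⌊Real.log Y ^ (2 - δ)⌋₊) ∧
      (4 : ℝ) ^ ⌊Real.log Y ^ (θ * (1 - η))⌋₊ * (yy κ Y + 1) ≤ (Y : ℝ) ^ ε ∧
      2 * Real.log Y ≤ (yy κ Y : ℝ) ^ (3 / 4 : ℝ) * Real.log (1 + τ)

/-! ## The theorem for fixed parameters -/

/-- `N` is not a sum of a chosen `s ≤ κ (log N)² log log N` and a chosen integer -/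
def Late {Ω : Type} (A : ℕ → Set Ω) (κ : ℝ) (ω : Ω) (N : ℕ) : Prop :=
  ∀ s : ℕ, 1 ≤ s → (s : ℝ) ≤ κ * (Real.log N ^ 2 * Real.log (Real.log N)) → ω ∈ A s → ω ∉ A (N - s)

/-- GG-FIN (uses S_SUP, S_CHE, S_NUM, S_SID).
Proof. Let `a = κ cc u`, `ε' = ε / 8`; `c` the minimum of the constants of S_NUM and S_SID for `ε'`,
`δ = η = τ = c`. Notation as in GG-NUM; `E = (1+τ) ru v y (MM (z y) / log y1)`, `B = (1+τ) E + y^(3/4)`,
`Z = ⌊Y^(a + ε/2)⌋₊ ≤ Y`, `J = ⌊Y^(a + ε/4)⌋₊`. `primorial v2 ≤ 4^v2` (`primorial_le_four_pow`), so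
`J * (primorial v2 * (y+1)) ≤ Y^(a + ε/4 + ε/8) ≤ Z` for large `Y`. S_SUP: the event there has probability
`≤ exp (-(J exp (-((a + ε') L)))) ≤ exp (-(Y^(ε/8) - 1))`; S_CHE (with `S` = the `Rou v` integers in `(y1, y]`,
`D = y^(3/4)`) gives probability `≤ exp (-2 L) = Y^(-2)` for more than `B` chosen ones. Both are summable, so
almost surely for all large `Y` none of the two events occurs (Borel-Cantelli; `Pool.Agent.R528.RM.bc_real` in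
`Pool/Agent/H50/G/S/R528/RM/Gold.lean`), and there is an even `N ∈ (Y, Y + Z]` such that no `s ∈ [1, y]`
has `ω ∈ A s`, `ω ∈ A (N - s)`; since `N ≤ 2 Y`, `κ (log N)² log log N < y + 1`. -/
def S_FIN : Prop := ∀ (Ω : Type) [MeasurableSpace Ω] (P : Measure Ω) (A : ℕ → Set Ω) (z : ℕ → ℕ) (θ : ℝ),
  GT P A z θ → 0 < θ → θ ≤ 1 → ∀ u κ ε : ℝ, 2 / θ < u → 0 < κ → 0 < ε → κ * cc u + ε ≤ 1 →
  ∀ᵐ ω ∂P, ∀ᶠ Y : ℕ in atTop, ∃ N : ℕ, Y < N ∧ (N : ℝ) ≤ Y + (Y : ℝ) ^ (κ * cc u + ε) ∧ Even N ∧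
    Late A κ ω N

/-- GG-GXT. The models exist. Proof. As `Pool/Agent/H50/GW/GXM.lean` (the case `θ = 1`), with
`z n = ⌊(log n)^θ⌋₊`; `MM (z n) ≤ z n ≤ log n` for large `n` since `θ ≤ 1`. -/
def S_GXT : Prop := ∀ θ : ℝ, 0 < θ → θ ≤ 1 →
  ∃ (Ω : Type) (_ : MeasurableSpace Ω) (P : Measure Ω) (A : ℕ → Set Ω) (z : ℕ → ℕ), GT P A z θ

end Pool.Agent.H95.GG
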